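import Pool.Agent.H85.V.RootHt
import Pool.Graph.R_pool_sql_team_seeded_3dad9d7b.NH28.FewD

set_option autoImplicit false

/-!
# Vojta's inequality for the points of bounded degree of the line, with the spread of the conjugates

`X = ℙ¹` over a number field `K`, `D` is the sum of `q` distinct `K`-rational points, `S` a finite
set of places of `K` containing the archimedean ones, and `x` runs through the points of degree at
most `r` over `K`. Vojta's conjecture says
`m_S(D, x) + h_{K_X}(x) ≤ d_K(x) + ε h(x) + O(1)`. Here we prove the inequality in which the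
logarithmic discriminant `d_K(x)` is replaced by the *spread*
`G_S(D, x) = (1 / 2) ∑_{v ∈ S} ∑_i E |λ_{i, v} - λ'_{i, v}|`, half of the mean difference of the
local heights `λ_{i, v}` at two independent random conjugates of `x` over the completion `K_v` (the
place `w` of the residue field `L` above `v` having probability `[L_w : K_v] / [L : K]`):

`m_S(D, x) + h_{K_X}(x) ≤ G_S(D, x) + ε h(x) + O(1)` for all `x` of degree at most `r` outside `D`.

The case `r = 1` is the theorem of Roth (in the form of Ridout and Lang). For points of larger degree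
the inequality says `∑_{v ∈ S} ∑_i E min (λ_{i, v}, λ'_{i, v}) ≤ (2 + ε) h(x) + O(1)`. Already the
terms in which the two random conjugates are the same one give the theorem of Wirsing,
`m_S(D, x) ≤ (2 r + ε) h(x) + O(1)` (equivalent, on the line, to Vojta's theorem of 1992 with the
arithmetic discriminant); the new ones are those with two different conjugates near the same point of
`D`. In particular the points whose conjugates are all about equally near to `D` satisfy the
inequality of Roth with the exponent `2`: for these, Vojta's inequality holds even without the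
discriminant.

Method: the subspace theorem (with exceptional hyperplanes independent of `S`) for the
`K`-rational points `(Tr (θ x₀^j x₁^(M-j)))_j`, where `θ` is an element of the residue field with
prescribed sizes at all the places above `S`, depending on `x`: at `w` one allows the additional size
`∑_{w'} [L_{w'} : K_v] min (λ_w, λ_{w'})`, the sum over the places `w'` near the same point of `D`.
At each place of `K` the basis of the forms of degree `M` is adapted to the vanishing at all the
points of `D` at once (a maximal chain of effective divisors supported on `D`, found greedily).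
-/

namespace Pool.Agent.Results.MP_71c16a_nt.BoundedDegreeSpread

open NumberField IsDedekindDomain

/-- The places of a number field: the archimedean places and the primes. -/
abbrev Place (L : Type) [Field L] [NumberField L] : Type :=
  InfinitePlace L ⊕ HeightOneSpectrum (𝓞 L)

/-- The place `w` of `L` lies above the place `v` of `K`. -/
def LiesAbove {K L : Type} [Field K] [NumberField K] [Field L] [NumberField L] [Algebra K L] :
    Place K → Place L → Prop
  | Sum.inl v, Sum.inl w => w.comap (algebraMap K L) = v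
  | Sum.inr v, Sum.inr w => w.asIdeal.LiesOver v.asIdeal
  | _, _ => False

/-- There are finitely many places above a place. -/
theorem finite_above {K : Type} (L : Type) [Field K] [NumberField K] [Field L] [NumberField L]
    [Algebra K L] (v : Place K) : {w : Place L | LiesAbove v w}.Finite := by
  refine (Pool.Agent.NH28.ab L v).finite_toSet.subset fun w hw => ?_
  rw [Finset.mem_coe, Pool.Agent.NH28.mem_ab]
  rcases v with v | v <;> rcases w with w | w <;> exact hw

/-- The finite set of the places of `L` above the place `v` of `K`. -/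
noncomputable def above {K : Type} (L : Type) [Field K] [NumberField K] [Field L] [NumberField L]
    [Algebra K L] (v : Place K) : Finset (Place L) := (finite_above L v).toFinset

/-- The absolute value of a place. At a prime it is the normalised one, with the value
`(N v) ^ (-ord_v x)` at `x ≠ 0`. -/
noncomputable def absv {L : Type} [Field L] [NumberField L] : Place L → L → ℝ
  | Sum.inl w => fun x => w x
  | Sum.inr v => fun x => FinitePlace.mk v x

/-- The exponent of the absolute value of a place in the product formula: `1` at real places and at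
primes, `2` at complex places. -/
noncomputable def weight {L : Type} [Field L] [NumberField L] : Place L → ℝ
  | Sum.inl w => w.mult
  | Sum.inr _ => 1

/-- The degree of the completion of `L` at a place over the completion of `K` at the place below:
the quotient of the degrees over `ℝ` at an archimedean place, `e f` at a prime. -/
noncomputable def localDegree (K : Type) {L : Type} [Field K] [NumberField K] [Field L]
    [NumberField L] [Algebra K L] : Place L → ℝ
  | Sum.inl w => w.mult / (w.comap (algebraMap K L)).mult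
  | Sum.inr w => ((w.asIdeal.under (𝓞 K)).ramificationIdx' w.asIdeal *
      (w.asIdeal.under (𝓞 K)).inertiaDeg' w.asIdeal : ℕ)

/-- The determinant of the coordinates of a point of `ℙ¹` over `K` and a point over `L`. -/
noncomputable def det {K L : Type} [Field K] [Field L] [Algebra K L] (a : Fin 2 → K)
    (x : Fin 2 → L) : L :=
  algebraMap K L (a 0) * x 1 - algebraMap K L (a 1) * x 0

/-- The local height (Weil function) `λ_{a, w}` of the point `a` of `ℙ¹` at the place `w` of `L`, for
the absolute value on `L_w` which extends the normalised absolute value of `K` (so that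
`∑_{w | v} [L_w : K_v] λ_{a, w} / [L : K]` is the local height at the place `v` of `K`). -/
noncomputable def localHeight {K L : Type} [Field K] [NumberField K] [Field L] [NumberField L]
    [Algebra K L] (a : Fin 2 → K) (x : Fin 2 → L) (w : Place L) : ℝ :=
  weight w / localDegree K w * Real.log ((⨆ j, absv w (x j)) / absv w (det a x))

/-- The proximity function `m_S(D, x) = ∑_{v ∈ S} λ_D(x, v)` for `D = ∑ a i`, where
`λ_D(x, v) = (1 / [L : K]) ∑_{w | v} [L_w : K_v] λ_{D, w}(x)`. -/
noncomputable def proximity {K L : Type} [Field K] [NumberField K] [Field L] [NumberField L]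
    [Algebra K L] {q : ℕ} (S : Finset (Place K)) (a : Fin q → Fin 2 → K) (x : Fin 2 → L) : ℝ :=
  ∑ v ∈ S, (∑ w ∈ above L v, localDegree K w * ∑ i, localHeight (a i) x w) /
    Module.finrank K L

/-- The spread `G_S(D, x)` of the conjugates of `x` with respect to `D = ∑ a i`: half the mean
difference of the local heights,
`(1 / 2) ∑_{v ∈ S} ∑_{w, w' | v} ([L_w : K_v] / [L : K]) ([L_{w'} : K_v] / [L : K])
  ∑_i |λ_{i, w} - λ_{i, w'}|`. -/
noncomputable def spread {K L : Type} [Field K] [NumberField K] [Field L] [NumberField L]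
    [Algebra K L] {q : ℕ} (S : Finset (Place K)) (a : Fin q → Fin 2 → K) (x : Fin 2 → L) : ℝ :=
  1 / 2 * ∑ v ∈ S, ∑ w ∈ above L v, ∑ w' ∈ above L v,
    localDegree K w / Module.finrank K L * (localDegree K w' / Module.finrank K L) *
      ∑ i, |localHeight (a i) x w - localHeight (a i) x w'|

/-- The logarithmic height, normalised relative to `K`. -/
noncomputable def height (K : Type) {L : Type} [Field K] [Field L] [NumberField L] [Algebra K L]
    (x : Fin 2 → L) : ℝ :=
  Height.logHeight x / Module.finrank K L

/-- The residue field over `K` of the point with homogeneous coordinates `x` in `L` is `L`. -/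
def ResidueField (K : Type) {L : Type} [Field K] [Field L] [Algebra K L] {n : ℕ}
    (x : Fin n → L) : Prop :=
  IntermediateField.adjoin K {z : L | ∃ i j, z = x i / x j} = ⊤

theorem above_eq {K L : Type} [Field K] [NumberField K] [Field L] [NumberField L] [Algebra K L]
    (v : Place K) : above L v = Pool.Agent.NH28.ab L v := by
  ext w
  rw [Pool.Agent.NH28.mem_ab]
  unfold above
  rw [Set.Finite.mem_toFinset, Set.mem_ofPred_eq]
  rcases v with v | v <;> rcases w with w | w <;> exact Iff.rfl

theorem localDegree_eq {K L : Type} [Field K] [NumberField K] [Field L] [NumberField L]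
    [Algebra K L] (v : Place K) (w : Place L) (hw : w ∈ Pool.Agent.NH28.ab L v) :
    localDegree K w = Pool.Agent.NH28.nn v w := by
  rw [Pool.Agent.NH28.nn_eq_lo (Pool.Agent.NH28.mem_ab.1 hw)]
  cases w <;> rfl

theorem localDegree_nonneg {K L : Type} [Field K] [NumberField K] [Field L] [NumberField L]
    [Algebra K L] (w : Place L) : 0 ≤ localDegree K w := by
  cases w with
  | inl w => exact div_nonneg (Nat.cast_nonneg _) (Nat.cast_nonneg _)
  | inr w => exact Nat.cast_nonneg _

theorem localHeight_eq {K L : Type} [Field K] [NumberField K] [Field L] [NumberField L]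
    [Algebra K L] (v : Place K) (w : Place L) (hw : w ∈ Pool.Agent.NH28.ab L v) {a : Fin 2 → K}
    {x : Fin 2 → L} : localHeight a x w =
      Pool.Agent.W180.OP.wt w * Pool.Agent.W180.OP.lam (Pool.Agent.W180.OP.av w) 1
        (Pool.Agent.W180.OP.bc L (Pool.Agent.H85.V.ln a)) x / Pool.Agent.NH28.nn v w := by
  have h1 : Real.log ((⨆ j, absv w (x j)) / absv w (det a x)) =
      Pool.Agent.W180.OP.lam (Pool.Agent.W180.OP.av w) 1
        (Pool.Agent.W180.OP.bc L (Pool.Agent.H85.V.ln a)) x := by
    unfold Pool.Agent.W180.OP.lam Pool.Agent.W180.OP.nrm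
    rw [Pool.Agent.W180.OP.eval_bc, Pool.Agent.H85.V.aeval_ln, pow_one]
    cases w <;> rfl
  have h2 : weight w = Pool.Agent.W180.OP.wt w := by cases w <;> rfl
  unfold localHeight
  rw [h1, h2, localDegree_eq v w hw]
  ring

/-- The inequality outside the zeros of a form which does not depend on `S`. -/
theorem outside_form (K : Type) [Field K] [NumberField K] (q : ℕ) (a : Fin q → Fin 2 → K)
    (ha0 : ∀ i, a i ≠ 0) (ha : ∀ i j, i ≠ j → a i 0 * a j 1 - a i 1 * a j 0 ≠ 0) (r : ℕ)
    (ε : ℝ) (hε : 0 < ε) :
    ∃ Z : MvPolynomial (Fin 2) K, Z ≠ 0 ∧ (∃ t, Z.IsHomogeneous t) ∧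
      ∀ S : Finset (Place K), (∀ v : InfinitePlace K, Sum.inl v ∈ S) → ∃ C : ℝ,
        ∀ (L : Type) [Field L] [NumberField L] [Algebra K L], Module.finrank K L ≤ r →
          ∀ x : Fin 2 → L, x ≠ 0 → ResidueField K x → (∀ i, det (a i) x ≠ 0) →
            MvPolynomial.aeval x Z ≠ 0 →
            proximity S a x + -2 * height K x ≤ ε * height K x + spread S a x + C := by
  classical
  have hh0 : ∀ (L : Type) [Field L] [NumberField L] [Algebra K L] (x : Fin 2 → L),
      0 ≤ height K x := fun L _ _ _ x =>
    div_nonneg (Height.logHeight_nonneg x) (Nat.cast_nonneg _)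
  rcases Nat.eq_zero_or_pos q with hq | hq
  · subst hq
    refine ⟨1, one_ne_zero, ⟨0, MvPolynomial.isHomogeneous_one _ _⟩, fun S _ => ⟨0, ?_⟩⟩
    intro L _ _ _ _ x _ _ _ _
    have h1 : proximity S a x = 0 := by simp [proximity]
    have h2 : spread S a x = 0 := by simp [spread]
    rw [h1, h2]
    have h3 := hh0 L x
    have h4 := mul_nonneg hε.le h3
    linarith
  -- the dictionary
  have hab : ∀ (L : Type) [Field L] [NumberField L] [Algebra K L] (v : Place K),
      above L v = Pool.Agent.NH28.ab L v := fun L _ _ _ v => above_eq v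
  have hnn : ∀ (L : Type) [Field L] [NumberField L] [Algebra K L] (v : Place K),
      ∀ w ∈ Pool.Agent.NH28.ab L v, localDegree K w = Pool.Agent.NH28.nn v w :=
    fun L _ _ _ v w hw => localDegree_eq v w hw
  have hloc : ∀ (L : Type) [Field L] [NumberField L] [Algebra K L] (v : Place K),
      ∀ w ∈ Pool.Agent.NH28.ab L v, ∀ (i : Fin q) (x : Fin 2 → L), localHeight (a i) x w =
      Pool.Agent.W180.OP.wt w * Pool.Agent.W180.OP.lam (Pool.Agent.W180.OP.av w) 1
        (Pool.Agent.W180.OP.bc L (Pool.Agent.H85.V.ln (a i))) x / Pool.Agent.NH28.nn v w :=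
    fun L _ _ _ v w hw i x => localHeight_eq v w hw
  have hmin : ∀ u v : ℝ, min u v = (u + v - |u - v|) / 2 := by
    intro u v
    rcases le_total u v with h | h
    · rw [min_eq_left h, abs_of_nonpos (by linarith)]
      ring
    · rw [min_eq_right h, abs_of_nonneg (by linarith)]
      ring
  -- the exceptional form
  have hex : ∀ s : Fin r, ∃ Z : MvPolynomial (Fin 2) K, Z ≠ 0 ∧ (∃ t, Z.IsHomogeneous t) ∧
      ∀ S : Finset (Pool.Agent.W180.OP.Pl K), (∀ v : InfinitePlace K, Sum.inl v ∈ S) →
      ∃ C : ℝ, 0 ≤ C ∧ ∀ (L : Type) [Field L] [NumberField L] [Algebra K L],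
        Module.finrank K L = (s : ℕ) + 1 → ∀ x : Fin 2 → L, x ≠ 0 →
        IntermediateField.adjoin K {z | ∃ i j, z = x i / x j} = ⊤ →
        (∀ i, MvPolynomial.aeval x (Pool.Agent.H85.V.ln (a i)) ≠ 0) →
        MvPolynomial.aeval x Z ≠ 0 →
        ∑ v ∈ S, ∑ w ∈ Pool.Agent.NH28.ab L v, ∑ w' ∈ Pool.Agent.NH28.ab L v,
          Pool.Agent.NH28.nn v w * Pool.Agent.NH28.nn v w' * ∑ i,
          min (Pool.Agent.W180.OP.wt w * Pool.Agent.W180.OP.lam (Pool.Agent.W180.OP.av w) 1
            (Pool.Agent.W180.OP.bc L (Pool.Agent.H85.V.ln (a i))) x / Pool.Agent.NH28.nn v w)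
            (Pool.Agent.W180.OP.wt w' * Pool.Agent.W180.OP.lam (Pool.Agent.W180.OP.av w') 1
            (Pool.Agent.W180.OP.bc L (Pool.Agent.H85.V.ln (a i))) x /
              Pool.Agent.NH28.nn v w') ≤
          (2 * ((s : ℕ) + 1 : ℕ) + ε) * Height.logHeight x + C := fun s =>
    Pool.Agent.H85.V.main_eq hq a ha0 ha ((s : ℕ) + 1) (by omega) ε hε
  choose Z hZ0 hZh hZ using hex
  choose t ht using hZh
  refine ⟨∏ s, Z s, Finset.prod_ne_zero_iff.2 fun s _ => hZ0 s,
    ⟨_, MvPolynomial.IsHomogeneous.prod _ _ _ fun s _ => ht s⟩, fun S hS => ?_⟩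
  choose C hC0 hC using fun s => hZ s S hS
  refine ⟨∑ s, C s, ?_⟩
  intro L _ _ _ hrL x hx hres hax hZx
  have hd : 0 < Module.finrank K L := Module.finrank_pos
  set d : ℝ := (Module.finrank K L : ℝ) with hdd
  have hd1 : (1 : ℝ) ≤ d := by rw [hdd]; exact_mod_cast hd
  set s : Fin r := ⟨Module.finrank K L - 1, by omega⟩ with hs
  have hs1 : Module.finrank K L = (s : ℕ) + 1 := by
    show Module.finrank K L = (Module.finrank K L - 1) + 1
    omega
  have hZs : MvPolynomial.aeval x (Z s) ≠ 0 := by
    intro h0
    apply hZx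
    rw [map_prod]
    exact Finset.prod_eq_zero (Finset.mem_univ s) h0
  have hmain := hC s L hs1 x hx hres (fun i => by
    rw [Pool.Agent.H85.V.aeval_ln]
    exact hax i) hZs
  rw [← hs1] at hmain
  -- the identity
  set H : ℝ := Height.logHeight x with hH
  have hHd : H = d * height K x := by
    unfold height
    rw [← hH, ← hdd, mul_div_cancel₀]
    linarith
  set lh : Fin q → Place L → ℝ := fun i w => localHeight (a i) x w with hlh
  have hid : ∀ v ∈ S, ∑ w ∈ Pool.Agent.NH28.ab L v, ∑ w' ∈ Pool.Agent.NH28.ab L v,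
          Pool.Agent.NH28.nn v w * Pool.Agent.NH28.nn v w' * ∑ i,
          min (Pool.Agent.W180.OP.wt w * Pool.Agent.W180.OP.lam (Pool.Agent.W180.OP.av w) 1
            (Pool.Agent.W180.OP.bc L (Pool.Agent.H85.V.ln (a i))) x / Pool.Agent.NH28.nn v w)
            (Pool.Agent.W180.OP.wt w' * Pool.Agent.W180.OP.lam (Pool.Agent.W180.OP.av w') 1
            (Pool.Agent.W180.OP.bc L (Pool.Agent.H85.V.ln (a i))) x /
              Pool.Agent.NH28.nn v w') =
        d ^ 2 * ((∑ w ∈ above L v, localDegree K w * ∑ i, localHeight (a i) x w) / d -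
          1 / 2 * ∑ w ∈ above L v, ∑ w' ∈ above L v,
            localDegree K w / d * (localDegree K w' / d) *
              ∑ i, |localHeight (a i) x w - localHeight (a i) x w'|) := by
    intro v _
    rw [hab L v]
    have hsum : ∑ w ∈ Pool.Agent.NH28.ab L v, Pool.Agent.NH28.nn v w = d :=
      Pool.Agent.NH28.sum_nn L v
    have hd0 : d ≠ 0 := by linarith
    have e1 : ∑ w ∈ Pool.Agent.NH28.ab L v, ∑ w' ∈ Pool.Agent.NH28.ab L v,
          Pool.Agent.NH28.nn v w * Pool.Agent.NH28.nn v w' * ∑ i,
          min (Pool.Agent.W180.OP.wt w * Pool.Agent.W180.OP.lam (Pool.Agent.W180.OP.av w) 1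
            (Pool.Agent.W180.OP.bc L (Pool.Agent.H85.V.ln (a i))) x / Pool.Agent.NH28.nn v w)
            (Pool.Agent.W180.OP.wt w' * Pool.Agent.W180.OP.lam (Pool.Agent.W180.OP.av w') 1
            (Pool.Agent.W180.OP.bc L (Pool.Agent.H85.V.ln (a i))) x /
              Pool.Agent.NH28.nn v w') =
        ∑ w ∈ Pool.Agent.NH28.ab L v, ∑ w' ∈ Pool.Agent.NH28.ab L v,
          (Pool.Agent.NH28.nn v w' * (Pool.Agent.NH28.nn v w * ∑ i, lh i w) / 2 +
            Pool.Agent.NH28.nn v w * (Pool.Agent.NH28.nn v w' * ∑ i, lh i w') / 2 -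
            1 / 2 * (Pool.Agent.NH28.nn v w * Pool.Agent.NH28.nn v w' *
              ∑ i, |lh i w - lh i w'|)) := by
      refine Finset.sum_congr rfl fun w hw => Finset.sum_congr rfl fun w' hw' => ?_
      have e2 : ∀ i, min (Pool.Agent.W180.OP.wt w * Pool.Agent.W180.OP.lam
            (Pool.Agent.W180.OP.av w) 1
            (Pool.Agent.W180.OP.bc L (Pool.Agent.H85.V.ln (a i))) x / Pool.Agent.NH28.nn v w)
            (Pool.Agent.W180.OP.wt w' * Pool.Agent.W180.OP.lam (Pool.Agent.W180.OP.av w') 1
            (Pool.Agent.W180.OP.bc L (Pool.Agent.H85.V.ln (a i))) x /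
              Pool.Agent.NH28.nn v w') = (lh i w + lh i w' - |lh i w - lh i w'|) / 2 := by
        intro i
        rw [← hloc L v w hw i x, ← hloc L v w' hw' i x]
        exact hmin _ _
      rw [Finset.sum_congr rfl fun i _ => e2 i, ← Finset.sum_div, Finset.sum_sub_distrib,
        Finset.sum_add_distrib]
      ring
    rw [e1]
    simp only [Finset.sum_sub_distrib, Finset.sum_add_distrib]
    have e3 : ∑ w ∈ Pool.Agent.NH28.ab L v, ∑ w' ∈ Pool.Agent.NH28.ab L v,
        Pool.Agent.NH28.nn v w' * (Pool.Agent.NH28.nn v w * ∑ i, lh i w) / 2 =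
        d * (∑ w ∈ Pool.Agent.NH28.ab L v, localDegree K w * ∑ i, lh i w) / 2 := by
      rw [Finset.mul_sum, Finset.sum_div]
      refine Finset.sum_congr rfl fun w hw => ?_
      rw [← Finset.sum_div, ← Finset.sum_mul, hsum, hnn L v w hw]
    have e4 : ∑ w ∈ Pool.Agent.NH28.ab L v, ∑ w' ∈ Pool.Agent.NH28.ab L v,
        Pool.Agent.NH28.nn v w * (Pool.Agent.NH28.nn v w' * ∑ i, lh i w') / 2 =
        d * (∑ w ∈ Pool.Agent.NH28.ab L v, localDegree K w * ∑ i, lh i w) / 2 := by
      rw [Finset.sum_comm, ← e3]
    have e5 : ∑ w ∈ Pool.Agent.NH28.ab L v, ∑ w' ∈ Pool.Agent.NH28.ab L v,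
        1 / 2 * (Pool.Agent.NH28.nn v w * Pool.Agent.NH28.nn v w' *
              ∑ i, |lh i w - lh i w'|) =
        d ^ 2 * (1 / 2 * ∑ w ∈ Pool.Agent.NH28.ab L v, ∑ w' ∈ Pool.Agent.NH28.ab L v,
            localDegree K w / d * (localDegree K w' / d) * ∑ i, |lh i w - lh i w'|) := by
      rw [Finset.mul_sum, Finset.mul_sum]
      refine Finset.sum_congr rfl fun w hw => ?_
      rw [Finset.mul_sum, Finset.mul_sum]
      refine Finset.sum_congr rfl fun w' hw' => ?_
      rw [hnn L v w hw, hnn L v w' hw']
      field_simp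
    rw [e3, e4, e5]
    have e6 : d ^ 2 * ((∑ w ∈ Pool.Agent.NH28.ab L v, localDegree K w * ∑ i, lh i w) / d) =
        d * (∑ w ∈ Pool.Agent.NH28.ab L v, localDegree K w * ∑ i, lh i w) := by
      field_simp
    show _ = d ^ 2 * ((∑ w ∈ Pool.Agent.NH28.ab L v, localDegree K w * ∑ i, lh i w) / d -
          1 / 2 * ∑ w ∈ Pool.Agent.NH28.ab L v, ∑ w' ∈ Pool.Agent.NH28.ab L v,
            localDegree K w / d * (localDegree K w' / d) * ∑ i, |lh i w - lh i w'|)
    rw [mul_sub, e6]
    ring
  rw [Finset.sum_congr rfl hid, ← Finset.mul_sum, Finset.sum_sub_distrib, ← Finset.mul_sum,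
    hHd] at hmain
  have hmain' : d ^ 2 * (proximity S a x - spread S a x) ≤
      (2 * d + ε) * (d * height K x) + C s := hmain
  have hh := hh0 L x
  have hCs : C s ≤ ∑ s, C s := Finset.single_le_sum (f := C) (fun s _ => hC0 s)
    (Finset.mem_univ s)
  have hd2 : 1 ≤ d ^ 2 := one_le_pow₀ hd1
  have h1 : d ^ 2 * (proximity S a x - spread S a x) ≤
      d ^ 2 * ((2 + ε) * height K x + C s) := by
    refine hmain'.trans ?_
    have e1 : ε * (d * height K x) ≤ ε * (d ^ 2 * height K x) := by
      refine mul_le_mul_of_nonneg_left ?_ hε.le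
      refine mul_le_mul_of_nonneg_right ?_ hh
      nlinarith
    have e2 : C s ≤ d ^ 2 * C s := le_mul_of_one_le_left (hC0 s) hd2
    nlinarith
  have h2 := le_of_mul_le_mul_left h1 (by positivity)
  linarith

/-- **Vojta's inequality for the points of bounded degree of the line, with the spread in place of
the discriminant.** Let `K` be a number field, `D = ∑ a i` a sum of `q` distinct `K`-rational points
of `ℙ¹`, `r` a natural number, `ε > 0` and `S` a finite set of places of `K` which contains the
archimedean places. There is `C` such that all points `x` of `ℙ¹` of degree at most `r` over `K`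
(with residue field `L`) which are not in `D` satisfy
`m_S(D, x) - 2 h(x) ≤ ε h(x) + G_S(D, x) + C`. -/
theorem result (K : Type) [Field K] [NumberField K] (q : ℕ) (a : Fin q → Fin 2 → K)
    (ha0 : ∀ i, a i ≠ 0) (ha : ∀ i j, i ≠ j → a i 0 * a j 1 - a i 1 * a j 0 ≠ 0) (r : ℕ)
    (ε : ℝ) (hε : 0 < ε) (S : Finset (Place K)) (hS : ∀ v : InfinitePlace K, Sum.inl v ∈ S) :
    ∃ C : ℝ, ∀ (L : Type) [Field L] [NumberField L] [Algebra K L], Module.finrank K L ≤ r →
      ∀ x : Fin 2 → L, x ≠ 0 → ResidueField K x → (∀ i, det (a i) x ≠ 0) →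
        proximity S a x + -2 * height K x ≤ ε * height K x + spread S a x + C := by
  classical
  obtain ⟨Z, hZ0, ⟨t, ht⟩, hZ⟩ := outside_form K q a ha0 ha r ε hε
  obtain ⟨C, hC⟩ := hZ S hS
  obtain ⟨CZ, hCZ0, hCZ⟩ := Pool.Agent.H85.V.root_ht Z hZ0 ht
  choose Cl hCl0 hCl using fun i : Fin q => Pool.Agent.H85.V.sum_lio
    (Pool.Agent.H85.V.ln (a i)) (Pool.Agent.H85.V.ln_hom (a i))
  set κ : ℝ := (Module.finrank ℚ K : ℝ) with hκ
  refine ⟨max C (∑ i, (CZ * κ + Cl i * κ)), ?_⟩
  intro L _ _ _ hrL x hx hres hax
  by_cases hZx : MvPolynomial.aeval x Z ≠ 0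
  · have h1 := hC L hrL x hx hres hax hZx
    have h2 := le_max_left C (∑ i, (CZ * κ + Cl i * κ))
    linarith
  rw [not_ne_iff] at hZx
  have hd : 0 < Module.finrank K L := Module.finrank_pos
  set d : ℝ := (Module.finrank K L : ℝ) with hdd
  have hd0 : 0 < d := by rw [hdd]; exact_mod_cast hd
  have hfq : (Module.finrank ℚ L : ℝ) = κ * d := by
    have h1 : Module.finrank ℚ K * Module.finrank K L = Module.finrank ℚ L :=
      Module.finrank_mul_finrank ℚ K L
    rw [hκ, hdd, ← h1]
    push_cast
    ring
  have hH := hCZ L x hx hZx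
  rw [hfq] at hH
  have hh0 : 0 ≤ height K x := div_nonneg (Height.logHeight_nonneg x) (Nat.cast_nonneg _)
  have hsp : 0 ≤ spread S a x := by
    unfold spread
    refine mul_nonneg (by norm_num) (Finset.sum_nonneg fun v _ => Finset.sum_nonneg fun w _ =>
      Finset.sum_nonneg fun w' _ => ?_)
    refine mul_nonneg (mul_nonneg (div_nonneg (localDegree_nonneg w) hd0.le)
      (div_nonneg (localDegree_nonneg w') hd0.le)) (Finset.sum_nonneg fun i _ => abs_nonneg _)
  have hprox : proximity S a x ≤ ∑ i, (CZ * κ + Cl i * κ) := by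
    have h1 : ∀ v ∈ S, (∑ w ∈ above L v, localDegree K w * ∑ i, localHeight (a i) x w) ≤
        ∑ i, ∑ w ∈ Pool.Agent.NH28.ab L v, Pool.Agent.W180.OP.wt w *
          max 0 (Pool.Agent.W180.OP.lam (Pool.Agent.W180.OP.av w) 1
            (Pool.Agent.W180.OP.bc L (Pool.Agent.H85.V.ln (a i))) x) := by
      intro v _
      rw [above_eq, Finset.sum_comm]
      refine Finset.sum_le_sum fun w hw => ?_
      rw [Finset.mul_sum]
      refine Finset.sum_le_sum fun i _ => ?_
      rw [localHeight_eq v w hw, localDegree_eq v w hw]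
      have h2 := Pool.Agent.NH28.one_le_nn (Pool.Agent.NH28.mem_ab.1 hw)
      rw [mul_div_cancel₀ _ (by linarith)]
      exact mul_le_mul_of_nonneg_left (le_max_right _ _) (Pool.Agent.W180.OP.wt_nonneg w)
    have h2 : proximity S a x =
        (∑ v ∈ S, ∑ w ∈ above L v, localDegree K w * ∑ i, localHeight (a i) x w) / d := by
      unfold proximity
      rw [Finset.sum_div]
    rw [h2, div_le_iff₀ hd0]
    refine (Finset.sum_le_sum h1).trans ?_
    rw [Finset.sum_comm, Finset.sum_mul]
    refine Finset.sum_le_sum fun i _ => ?_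
    have h3 := hCl i L S x hx (by
      rw [Pool.Agent.H85.V.aeval_ln]
      exact hax i)
    rw [hfq] at h3
    push_cast at h3
    have h4 : (CZ * κ + Cl i * κ) * d = CZ * (κ * d) + Cl i * (κ * d) := by ring
    rw [h4]
    linarith
  have h2 := le_max_right C (∑ i, (CZ * κ + Cl i * κ))
  have h3 := mul_nonneg hε.le hh0
  linarith

end Pool.Agent.Results.MP_71c16a_nt.BoundedDegreeSpread
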